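import Pool.Agent.Helper98.WF.St

/-!
# Project WF (MP_bae8ce_ag), module BB: the symbols with small terms are killed
-/

set_option autoImplicit false

namespace Pool.Agent.Helper90.WF.M_BB

open Pool.Agent.Helper98.WF
open Polynomial

theorem stBB (hBA : StBA) (hFT : StFT) (hRHO : StRHO) (hTOR : StTOR) (hGEN : StGEN) : StBB := by
  intro p hp F E _ _ _ _ L d P S m n hAlg hL hP hS halt htri a b c c' ha hb hc hc' da db dc dc'
    hmem hmk
  have : Fact (Irreducible P) := ⟨hP.2.1⟩
  obtain ⟨hd, hmkrho, hdeg, hsub, hone, hzero, hrep, hdiv, hmkne⟩ := hRHO F d P hP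
  obtain ⟨hchar, halgκ, -, -⟩ := hTOR p F P hAlg
  obtain ⟨⟨hL0, hL1, hLneg⟩, hLsm, -⟩ := hGEN F E L hL
  have := hchar
  have hsm : ∀ x : AdjoinRoot P, L (rho P x) ∈ S := fun x => hS (hLsm d _ (hdeg x))
  have halt' : ∀ x ∈ S, ∀ y ∈ S, m x y = - m y x := by
    intro x hx y hy
    have h1 := halt (x + y) (S.add_mem hx hy)
    have h2 := halt x hx
    have h3 := halt y hy
    simp only [map_add, LinearMap.add_apply] at h1
    linarith
  have hne : ∀ x : AdjoinRoot P, x ≠ 0 → rho P x ≠ 0 := fun x hx h => hx ((hzero x).1 h)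
  set β : AdjoinRoot P → ℚ := fun x => Z L m (rho P x) 1 with hβ
  have hβ1 : ∀ x : AdjoinRoot P, β x = m (L (rho P (1 - x))) (L (rho P x)) := by
    intro x
    rw [hsub, hone]
    show Z L m (rho P x) 1 = _
    unfold Z
    rw [hL1, sub_zero, sub_zero]
  -- BA for residue classes
  have hZ : ∀ a b c c' : AdjoinRoot P, a ≠ 0 → b ≠ 0 → c ≠ 0 → c' ≠ 0 → c * c' ≠ a * b →
      ∀ t : AdjoinRoot P, rho P c * rho P c' - rho P a * rho P b = rho P t →
      Z L m (rho P a * rho P b) (rho P c * rho P c') = β (a * b / (c * c')) := by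
    intro a b c c' ha hb hc hc' hne' t ht
    have h1 := hBA F E L d P S m n hL hP hS halt htri (rho P a) (rho P b) (rho P c) (rho P c')
      (hne a ha) (hne b hb) (hne c hc) (hne c' hc') (hdeg a) (hdeg b) (hdeg c) (hdeg c')
      (by rw [ht]; exact hsm t)
      (by
        rw [map_sub, map_mul, map_mul, hmkrho, hmkrho, hmkrho, hmkrho]
        exact sub_ne_zero.2 hne')
    rw [h1, map_mul, map_mul, hmkrho, hmkrho, hmkrho, hmkrho]
  have hinv : ∀ x : AdjoinRoot P, x ≠ 0 → x ≠ 1 → β x⁻¹ = - β x := by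
    intro x hx hx1
    have h1 := hZ 1 1 x 1 one_ne_zero one_ne_zero hx one_ne_zero
      (by rw [mul_one, mul_one]; exact hx1) (x - 1)
      (by rw [hone, mul_one, mul_one, hsub, hone])
    rw [mul_one, mul_one, one_div] at h1
    rw [← h1, hone, mul_one, mul_one, hβ1]
    unfold Z
    have h2 : L (rho P x - 1) = L (rho P (1 - x)) := by
      rw [← hLneg, hsub, hone, neg_sub]
    rw [h2, hL1, zero_sub, map_neg, map_sub, LinearMap.sub_apply, halt _ (hsm x), sub_zero]
  have hsub1 : ∀ x : AdjoinRoot P, x ≠ 0 → x ≠ 1 → β (1 - x) = - β x := by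
    intro x hx hx1
    rw [hβ1, hβ1, sub_sub_cancel]
    exact halt' _ (hsm _) _ (hsm _)
  have hfive : ∀ x y : AdjoinRoot P, x ≠ 0 → x ≠ 1 → y ≠ 0 → y ≠ 1 → x ≠ y →
      β x - β y + β (y / x) - β ((1 - y) / (1 - x)) - β (y * (1 - x) / (x * (1 - y))) = 0 := by
    intro x y hx hx1 hy hy1 hxy
    have hx' : 1 - x ≠ 0 := sub_ne_zero.2 (Ne.symm hx1)
    have hy' : 1 - y ≠ 0 := sub_ne_zero.2 (Ne.symm hy1)
    have r1x : rho P (1 - x) = 1 - rho P x := by rw [hsub, hone]
    have r1y : rho P (1 - y) = 1 - rho P y := by rw [hsub, hone]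
    have e1 := hZ y 1 x 1 hy one_ne_zero hx one_ne_zero
      (by rw [mul_one, mul_one]; exact hxy) (x - y)
      (by rw [hone, mul_one, mul_one, hsub])
    have e2 := hZ (1 - y) 1 (1 - x) 1 hy' one_ne_zero hx' one_ne_zero
      (by
        rw [mul_one, mul_one]
        intro h
        exact hxy (sub_right_injective h)) (y - x)
      (by rw [hone, mul_one, mul_one, r1x, r1y, hsub]; ring)
    have e3 := hZ y (1 - x) x (1 - y) hy hx' hx hy'
      (by
        intro h
        apply hxy
        have h5 : x * (1 - y) - y * (1 - x) = x - y := by ring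
        have h6 : x - y = 0 := by rw [← h5, h, sub_self]
        exact sub_eq_zero.1 h6) (x - y)
      (by rw [r1x, r1y, hsub]; ring)
    rw [mul_one, mul_one] at e1 e2
    rw [← e1, ← e2, ← e3, hβ1 x, hβ1 y]
    have hU := hsm x
    have hV := hsm y
    have hU' := hsm (1 - x)
    have hV' := hsm (1 - y)
    have hs := hsm (x - y)
    unfold Z
    have f1 : L (rho P x * rho P 1 - rho P y * rho P 1) = L (rho P (x - y)) := by
      rw [hone, mul_one, mul_one, hsub]
    have f2 : L (rho P (1 - x) * rho P 1 - rho P (1 - y) * rho P 1) = L (rho P (x - y)) := by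
      rw [hone, mul_one, mul_one, r1x, r1y, hsub, ← hLneg]
      congr 1
      ring
    have f3 : L (rho P x * rho P (1 - y) - rho P y * rho P (1 - x)) = L (rho P (x - y)) := by
      rw [r1x, r1y, hsub]
      congr 1
      ring
    have g1 : ∀ z : AdjoinRoot P, L (rho P z * rho P 1) = L (rho P z) := by
      intro z
      rw [hone, mul_one]
    have g2 : L (rho P x * rho P (1 - y)) = L (rho P x) + L (rho P (1 - y)) :=
      hL.mul _ _ (hne x hx) (hne _ hy')
    have g3 : L (rho P y * rho P (1 - x)) = L (rho P y) + L (rho P (1 - x)) :=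
      hL.mul _ _ (hne y hy) (hne _ hx')
    rw [f1, f2, f3, g1, g1, g1, g1, g2, g3]
    have a1 := halt' _ hU _ hU'
    have a2 := halt' _ hU _ hV'
    have a3 := halt' _ hU' _ hV'
    have a4 := halt _ hU
    have a5 := halt _ hU'
    have a6 := halt _ hV'
    simp only [map_sub, map_add, LinearMap.sub_apply, LinearMap.add_apply]
    linarith
  -- the conclusion
  have h1 := hBA F E L d P S m n hL hP hS halt htri a b c c' ha hb hc hc' da db dc dc' hmem hmk
  rw [h1]
  have hmkab : AdjoinRoot.mk P (a * b) ≠ 0 := by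
    rw [map_mul]
    exact mul_ne_zero (hmkne a ha da) (hmkne b hb db)
  have hmkcc : AdjoinRoot.mk P (c * c') ≠ 0 := by
    rw [map_mul]
    exact mul_ne_zero (hmkne c hc dc) (hmkne c' hc' dc')
  refine hFT p (AdjoinRoot P) β halgκ hinv hsub1 hfive _ (div_ne_zero hmkab hmkcc) ?_
  intro h
  rw [div_eq_one_iff_eq hmkcc] at h
  apply hmk
  rw [map_sub, h, sub_self]

end Pool.Agent.Helper90.WF.M_BB
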